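import Mathlib
import Pool.Agent.Helper92.RK.Defs

/-!
# Two general forms are relatively prime

For each variable `z` all other variables are put equal to one; two general forms specialise to
two relatively prime polynomials in one variable of the largest possible degree.
-/

namespace Pool.Agent.Helper60.RK

open MvPolynomial Pool.Agent.Helper92.RK

variable {s b : ℕ} {M : Finset (Fin b →₀ ℕ)}

/-- the exponent of the variable `z` -/
def dg (z : Fin s ⊕ Fin b) (e : Ix s M) : ℕ :=
  Sum.elim (fun i => (e.1 i : ℕ)) (fun j => (e.2 : Fin b →₀ ℕ) j) z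

/-- the largest exponent of the variable `z` -/
def mx (M : Finset (Fin b →₀ ℕ)) (z : Fin s ⊕ Fin b) : ℕ :=
  (Finset.univ : Finset (Ix s M)).sup (dg z)

theorem dg_le (z : Fin s ⊕ Fin b) (e : Ix s M) : dg z e ≤ mx M z :=
  Finset.le_sup (f := dg z) (Finset.mem_univ e)

/-- the form with all variables but `z` equal to one -/
noncomputable def P1 {R : Type*} [CommRing R] (z : Fin s ⊕ Fin b) (a : Ix s M → R) :
    Polynomial R := ∑ e, Polynomial.C (a e) * Polynomial.X ^ dg z e

theorem P1_map {R S : Type*} [CommRing R] [CommRing S] (φ : R →+* S) (z : Fin s ⊕ Fin b)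
    (a : Ix s M → R) : (P1 z a).map φ = P1 z fun e => φ (a e) := by
  unfold P1
  rw [Polynomial.map_sum]
  refine Finset.sum_congr rfl fun e _ => ?_
  simp

theorem P1_deg {R : Type*} [CommRing R] (z : Fin s ⊕ Fin b) (a : Ix s M → R) :
    (P1 z a).natDegree ≤ mx M z := by
  unfold P1
  refine Polynomial.natDegree_sum_le_of_forall_le _ _ fun e _ => ?_
  exact (Polynomial.natDegree_C_mul_X_pow_le _ _).trans (dg_le z e)

theorem form_eq' {R : Type*} [CommRing R] (a : Ix s M → R) :
    form a = ∑ e, C (a e) * ∏ v : Fin s ⊕ Fin b, X v ^ dg v e := by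
  unfold form
  refine Finset.sum_congr rfl fun e _ => ?_
  rw [Fintype.prod_sum_type]
  rfl

/-- put all variables but `z` equal to one -/
noncomputable def sp {R : Type*} [CommRing R] (z : Fin s ⊕ Fin b) :
    MvPolynomial (Fin s ⊕ Fin b) R →ₐ[R] Polynomial R :=
  aeval fun v => if v = z then Polynomial.X else 1

theorem prod_ite_pow {R : Type*} [CommRing R] (z : Fin s ⊕ Fin b) (m : Fin s ⊕ Fin b → ℕ) :
    ∏ v, (if v = z then (Polynomial.X : Polynomial R) else 1) ^ m v = Polynomial.X ^ m z := by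
  rw [Finset.prod_eq_single z]
  · rw [if_pos rfl]
  · intro v _ hv
    rw [if_neg hv, one_pow]
  · intro h
    exact absurd (Finset.mem_univ z) h

theorem sp_form {R : Type*} [CommRing R] (z : Fin s ⊕ Fin b) (a : Ix s M → R) :
    sp z (form a) = P1 z a := by
  rw [form_eq', map_sum]
  unfold P1
  refine Finset.sum_congr rfl fun e _ => ?_
  rw [map_mul, map_prod]
  simp only [map_pow, sp, aeval_X, prod_ite_pow]
  rw [show (aeval (R := R) (fun v : Fin s ⊕ Fin b => if v = z then (Polynomial.X : Polynomial R)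
    else 1)) (C (a e)) = Polynomial.C (a e) from aeval_C _ _]

theorem sp_deg {R : Type*} [CommRing R] (z : Fin s ⊕ Fin b) (g : MvPolynomial (Fin s ⊕ Fin b) R) :
    (sp z g).natDegree ≤ degreeOf z g := by
  unfold sp
  rw [aeval_def, eval₂_eq']
  refine Polynomial.natDegree_sum_le_of_forall_le _ _ fun m hm => ?_
  rw [prod_ite_pow]
  exact (Polynomial.natDegree_C_mul_X_pow_le _ _).trans (monomial_le_degreeOf z hm)

theorem degreeOf_form {R : Type*} [CommRing R] [Nontrivial R] (z : Fin s ⊕ Fin b)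
    (a : Ix s M → R) : degreeOf z (form a) ≤ mx M z := by
  rw [form_eq']
  refine (degreeOf_sum_le _ _ _).trans (Finset.sup_le fun e _ => ?_)
  refine (degreeOf_C_mul_le _ _ _).trans ((degreeOf_prod_le _ _ _).trans ?_)
  refine le_trans (le_of_eq ?_) (dg_le z e)
  rw [Finset.sum_eq_single z]
  · rw [degreeOf_X_self_pow]
  · intro v _ hv
    exact degreeOf_X_pow_of_ne _ hv.symm
  · intro h
    exact absurd (Finset.mem_univ z) h

theorem P1_coeff {R : Type*} [CommRing R] (z : Fin s ⊕ Fin b) (a : Ix s M → R) (k : ℕ) :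
    (P1 z a).coeff k = ∑ e, if k = dg z e then a e else 0 := by
  unfold P1
  rw [Polynomial.finsetSum_coeff]
  refine Finset.sum_congr rfl fun e _ => ?_
  rw [Polynomial.coeff_C_mul_X_pow]

theorem P1_single {R : Type*} [CommRing R] (z : Fin s ⊕ Fin b) (e : Ix s M) :
    P1 z (Pi.single e (1 : R)) = Polynomial.X ^ dg z e := by
  classical
  unfold P1
  rw [Finset.sum_eq_single e]
  · simp
  · intro v _ hv
    rw [Pi.single_eq_of_ne hv, map_zero, zero_mul]
  · intro h
    exact absurd (Finset.mem_univ e) h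

/-- the condition for the variable `z` -/
noncomputable def D1 (M : Finset (Fin b →₀ ℕ)) (z : Fin s ⊕ Fin b) :
    MvPolynomial (Ix s M ⊕ Ix s M) ℚ :=
  (P1 z fun e : Ix s M => (X (.inl e) : MvPolynomial (Ix s M ⊕ Ix s M) ℚ)).coeff (mx M z) *
    (P1 z fun e : Ix s M => (X (.inl e) : MvPolynomial (Ix s M ⊕ Ix s M) ℚ)).resultant
      (P1 z fun e : Ix s M => X (.inr e)) (mx M z) (mx M z)

theorem D1_aeval {K : Type*} [Field K] [CharZero K] (z : Fin s ⊕ Fin b) (a a' : Ix s M → K) :
    aeval (Sum.elim a a') (D1 M z) =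
      (P1 z a).coeff (mx M z) * (P1 z a).resultant (P1 z a') (mx M z) (mx M z) := by
  unfold D1
  rw [map_mul]
  have h1 : (P1 z fun e : Ix s M => (X (.inl e) : MvPolynomial (Ix s M ⊕ Ix s M) ℚ)).map
      (aeval (R := ℚ) (Sum.elim a a')).toRingHom = P1 z a := by
    rw [P1_map]
    congr 1
    funext e
    exact aeval_X _ _
  have h2 : (P1 z fun e : Ix s M => (X (.inr e) : MvPolynomial (Ix s M ⊕ Ix s M) ℚ)).map
      (aeval (R := ℚ) (Sum.elim a a')).toRingHom = P1 z a' := by
    rw [P1_map]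
    congr 1
    funext e
    exact aeval_X _ _
  have h3 := Polynomial.resultant_map_map
    (P1 z fun e : Ix s M => (X (.inl e) : MvPolynomial (Ix s M ⊕ Ix s M) ℚ))
    (P1 z fun e : Ix s M => X (.inr e)) (mx M z) (mx M z)
    (aeval (R := ℚ) (Sum.elim a a')).toRingHom
  rw [h1, h2] at h3
  rw [h3, ← h1, Polynomial.coeff_map]
  rfl

theorem D1_ne (h0 : 0 ∈ M) (z : Fin s ⊕ Fin b) : D1 M z ≠ 0 := by
  classical
  have hne : (Finset.univ : Finset (Ix s M)).Nonempty := ⟨(fun _ => 0, ⟨0, h0⟩), Finset.mem_univ _⟩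
  obtain ⟨e1, -, he1⟩ := Finset.exists_mem_eq_sup _ hne (dg z)
  have he0 : dg z ((fun _ => 0, ⟨0, h0⟩) : Ix s M) = 0 := by
    unfold dg
    rcases z with i | j
    · rfl
    · rfl
  intro h
  have h1 := D1_aeval (K := ℚ) z (Pi.single e1 1) (Pi.single (fun _ => 0, ⟨0, h0⟩) 1)
  rw [h, map_zero, P1_single, P1_single, he0, pow_zero, Polynomial.resultant_one_right,
    show mx M z = dg z e1 from he1, Polynomial.coeff_X_pow_self] at h1
  simp at h1

theorem C_of {K : Type*} [Field K] {σ : Type*} (c : MvPolynomial σ K)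
    (h : ∀ z, degreeOf z c = 0) : c = C (coeff 0 c) := by
  classical
  ext m
  rw [coeff_C]
  split_ifs with hm
  · rw [hm]
  · by_contra hc
    apply hm
    ext z
    have h1 := monomial_le_degreeOf z (mem_support_iff.2 hc)
    rw [h z] at h1
    simpa using (Nat.le_zero.1 h1).symm

theorem form_ne {K : Type*} [Field K] (h0 : 0 ∈ M) (a : Ix s M → K)
    (h : a (fun _ => 0, ⟨0, h0⟩) ≠ 0) : form a ≠ 0 := by
  intro hf
  have h1 := congrArg (eval fun _ => (0 : K)) hf
  rw [form_eq', map_zero, map_sum, Finset.sum_eq_single (fun _ => 0, ⟨0, h0⟩)] at h1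
  · rw [map_mul, map_prod, eval_C] at h1
    rw [Finset.prod_eq_one, mul_one] at h1
    · exact h h1
    · intro v _
      rw [map_pow, eval_X]
      rcases v with i | j
      · exact pow_zero _
      · exact pow_zero _
  · intro e _ he
    rw [map_mul, map_prod]
    have : ∃ v : Fin s ⊕ Fin b, dg v e ≠ 0 := by
      by_contra hv
      push Not at hv
      apply he
      refine Prod.ext ?_ (Subtype.ext ?_)
      · funext i
        exact Fin.ext (hv (.inl i))
      · ext j
        exact hv (.inr j)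
    obtain ⟨v, hv⟩ := this
    rw [Finset.prod_eq_zero (Finset.mem_univ v), mul_zero]
    rw [map_pow, eval_X, zero_pow hv]
  · intro h
    exact absurd (Finset.mem_univ _) h

/-- C -/
theorem coprime_gen {s : ℕ} (h0 : 0 ∈ M) :
    ∃ Δ : MvPolynomial (Ix s M ⊕ Ix s M) ℚ, Δ ≠ 0 ∧
    ∀ (K : Type) [Field K] [CharZero K] (a a' : Ix s M → K), aeval (Sum.elim a a') Δ ≠ 0 →
      IsRelPrime (form a) (form a') := by
  refine ⟨X (.inl (fun _ => 0, ⟨0, h0⟩)) * ∏ z, D1 M z,
    mul_ne_zero (X_ne_zero _) (Finset.prod_ne_zero_iff.2 fun z _ => D1_ne h0 z), ?_⟩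
  intro K _ _ a a' h
  rw [map_mul, map_prod, aeval_X] at h
  have ha : form a ≠ 0 := form_ne h0 a (left_ne_zero_of_mul h)
  intro c hc hc'
  have hc0 : c ≠ 0 := fun h => ha (by rw [h] at hc; exact zero_dvd_iff.1 hc)
  suffices hz : ∀ z, degreeOf z c = 0 by
    rw [C_of c hz] at hc0 ⊢
    exact (isUnit_iff_ne_zero.2 fun h => hc0 (by rw [h, C_0])).map C
  intro z
  by_contra hz
  have hD := Finset.prod_ne_zero_iff.1 (right_ne_zero_of_mul h) z (Finset.mem_univ z)
  rw [D1_aeval] at hD
  obtain ⟨g, hg⟩ := hc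
  obtain ⟨g', hg'⟩ := hc'
  have hg0 : g ≠ 0 := fun h => ha (by rw [hg, h, mul_zero])
  have hdeg : degreeOf z c + degreeOf z g ≤ mx M z := by
    rw [← degreeOf_mul_eq hc0 hg0, ← hg]
    exact degreeOf_form z a
  have hm : mx M z ≠ 0 := by omega
  obtain ⟨p, q, -, -, hpq⟩ := Polynomial.exists_mul_add_mul_eq_C_resultant (P1 z a) (P1 z a')
    (P1_deg z a) (P1_deg z a') (.inl hm)
  have h1 : P1 z a = sp z c * sp z g := by rw [← map_mul, ← hg, sp_form]
  have h2 : P1 z a' = sp z c * sp z g' := by rw [← map_mul, ← hg', sp_form]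
  have hu : IsUnit (sp z c) := by
    refine isUnit_of_dvd_unit ⟨sp z g * p + sp z g' * q, ?_⟩
      (Polynomial.isUnit_C.2 (isUnit_iff_ne_zero.2 (right_ne_zero_of_mul hD)))
    rw [← hpq, h1, h2]
    ring
  have h3 : (P1 z a).natDegree < mx M z := by
    rw [h1]
    refine lt_of_le_of_lt Polynomial.natDegree_mul_le ?_
    rw [Polynomial.natDegree_eq_zero_of_isUnit hu]
    have := sp_deg z g
    omega
  exact left_ne_zero_of_mul hD (Polynomial.coeff_eq_zero_of_natDegree_lt h3)

end Pool.Agent.Helper60.RK
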