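import Mathlib
import Pool.Agent.Helper92.RK.Defs
import Pool.Agent.Helper76.XN.ET
import Pool.Agent.Helper60.RK.Cop

/-!
# Multisections: the universal system

One variable `t`.  `pl a x` is the form at the point `x` as a polynomial in `t`, `dsp a x` the
discriminant.  `eqp a k = dsp - G * H ^ 2` with the unknown coefficients `k`.
-/

namespace Pool.Agent.Helper60.RK

open MvPolynomial Pool.Agent.Helper92.RK

section gen

variable {R S : Type*} [CommRing R] [CommRing S] {r b : ℕ} {M : Finset (Fin b →₀ ℕ)}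

theorem map_form (φ : R →+* S) (a : Ix r M → R) :
    map φ (form a) = form (fun e => φ (a e)) := by
  simp only [form, map_sum, map_mul, map_prod, map_pow, map_C, map_X]

theorem map_dis {s : ℕ} (φ : R →+* S) (a : Ix (s + 1) M → R) :
    map φ (dis a) = dis (fun e => φ (a e)) := by
  unfold dis
  rw [map_sub, map_pow, map_mul, map_mul, map_form, map_form, map_form]
  rw [show (map φ (4 : MvPolynomial (Fin s ⊕ Fin b) R)) = 4 from map_ofNat _ 4]
  rfl

theorem hom_eval {σ : Type*} (φ : R →+* S) (v : σ → R) (p : MvPolynomial σ R) :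
    φ (eval v p) = eval (fun i => φ (v i)) (map φ p) := by
  induction p using MvPolynomial.induction_on with
  | C a => simp
  | add p q hp hq => simp [hp, hq]
  | mul_X p i hp => simp [hp]

end gen

section one

variable {R S : Type*} [CommRing R] [CommRing S] {r s : ℕ} {M : Finset (Fin 1 →₀ ℕ)}

/-- the form at the point `x` -/
noncomputable def pl (a : Ix r M → R) (x : Fin r → R) : Polynomial R :=
  ∑ e, Polynomial.C (a e * ∏ i, x i ^ (e.1 i : ℕ)) * Polynomial.X ^ (e.2 : Fin 1 →₀ ℕ) 0

theorem pl_map (φ : R →+* S) (a : Ix r M → R) (x : Fin r → R) :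
    (pl a x).map φ = pl (fun e => φ (a e)) fun i => φ (x i) := by
  unfold pl
  rw [Polynomial.map_sum]
  refine Finset.sum_congr rfl fun e _ => ?_
  rw [Polynomial.map_mul, Polynomial.map_C, Polynomial.map_pow, Polynomial.map_X, map_mul,
    map_prod]
  simp only [map_pow]

theorem pl_eval (a : Ix r M → R) (x : Fin r → R) (t : R) :
    (pl a x).eval t = eval (Sum.elim x fun _ => t) (form a) := by
  unfold pl form
  rw [Polynomial.eval_finsetSum, map_sum]
  refine Finset.sum_congr rfl fun e _ => ?_
  rw [Polynomial.eval_mul, Polynomial.eval_C, Polynomial.eval_pow, Polynomial.eval_X]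
  simp only [map_mul, map_prod, map_pow, eval_C, eval_X, Sum.elim_inl, Sum.elim_inr,
    Finset.univ_unique, Finset.prod_singleton, Fin.default_eq_zero]
  ring

theorem pl_deg {m : ℕ} (hM : ∀ β ∈ M, β 0 ≤ m) (a : Ix r M → R) (x : Fin r → R) :
    (pl a x).natDegree ≤ m := by
  unfold pl
  refine Polynomial.natDegree_sum_le_of_forall_le _ _ fun e _ => ?_
  exact (Polynomial.natDegree_C_mul_X_pow_le _ _).trans (hM _ e.2.2)

/-- the discriminant at the point `x` -/
noncomputable def dsp (a : Ix (s + 1) M → R) (x : Fin s → R) : Polynomial R :=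
  pl (sub 1 a) x ^ 2 - 4 * pl (sub 2 a) x * pl (sub 0 a) x

theorem dsp_map (φ : R →+* S) (a : Ix (s + 1) M → R) (x : Fin s → R) :
    (dsp a x).map φ = dsp (fun e => φ (a e)) fun i => φ (x i) := by
  unfold dsp
  rw [Polynomial.map_sub, Polynomial.map_pow, Polynomial.map_mul, Polynomial.map_mul, pl_map,
    pl_map, pl_map]
  rw [show (Polynomial.map φ (4 : Polynomial R)) = 4 from Polynomial.map_ofNat φ 4]
  rfl

theorem dsp_eval (a : Ix (s + 1) M → R) (x : Fin s → R) (t : R) :
    (dsp a x).eval t = eval (Sum.elim x fun _ => t) (dis a) := by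
  unfold dsp dis
  simp only [Polynomial.eval_sub, Polynomial.eval_pow, Polynomial.eval_mul, pl_eval, map_sub,
    map_pow, map_mul]
  rw [show (Polynomial.eval t (4 : Polynomial R)) = 4 from Polynomial.eval_ofNat 4 t,
    show (eval (Sum.elim x fun _ => t) (4 : MvPolynomial (Fin s ⊕ Fin 1) R)) = 4 from
      map_ofNat _ 4]

theorem dsp_deg {m : ℕ} (hM : ∀ β ∈ M, β 0 ≤ m) (a : Ix (s + 1) M → R) (x : Fin s → R) :
    (dsp a x).natDegree ≤ 2 * m := by
  unfold dsp
  refine (Polynomial.natDegree_sub_le _ _).trans (max_le ?_ ?_)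
  · exact Polynomial.natDegree_pow_le_of_le 2 (pl_deg hM _ _)
  · refine (Polynomial.natDegree_mul_le.trans (Nat.add_le_add
      (Polynomial.natDegree_mul_le.trans (Nat.add_le_add (le_refl _) (pl_deg hM _ _)))
      (pl_deg hM _ _))).trans ?_
    rw [show (4 : Polynomial R).natDegree = 0 from Polynomial.natDegree_ofNat 4]
    omega

end one

section sys

/-- The unknowns: `n` coordinates, five coefficients of `G`, `n` coefficients of `H`, the zero. -/
abbrev Un (n : ℕ) := Fin n ⊕ (Fin 5 ⊕ (Fin n ⊕ Unit))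

theorem exists_index (n : ℕ) : Nonempty (Un n ≃ Fin (2 * n + 5) ⊕ Unit) := by
  refine Fintype.card_eq.1 ?_
  simp only [Fintype.card_sum, Fintype.card_fin, Fintype.card_unit]
  omega

/-- A numbering of the equations. -/
noncomputable def ixe (n : ℕ) : Un n ≃ Fin (2 * n + 5) ⊕ Unit := (exists_index n).some

variable {R S : Type*} [CommRing R] [CommRing S] {n s : ℕ} {M : Finset (Fin 1 →₀ ℕ)}

/-- The coordinates. -/
def xx (s : ℕ) (k : Un n → R) (i : Fin s) : R :=
  if h : (i : ℕ) < n then k (.inl ⟨i, h⟩) else 0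

/-- `G` -/
noncomputable def gG (k : Un n → R) : Polynomial R :=
  ∑ j : Fin 5, Polynomial.C (k (.inr (.inl j))) * Polynomial.X ^ (j : ℕ)

/-- `H` -/
noncomputable def hH (k : Un n → R) : Polynomial R :=
  Polynomial.X ^ n +
    ∑ j : Fin n, Polynomial.C (k (.inr (.inr (.inl j)))) * Polynomial.X ^ (j : ℕ)

/-- the zero of `G` -/
def tT (k : Un n → R) : R := k (.inr (.inr (.inr ())))

/-- the equation -/
noncomputable def eqp (a : Ix (s + 1) M → R) (k : Un n → R) : Polynomial R :=
  dsp a (xx s k) - gG k * hH k ^ 2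

/-- the system -/
noncomputable def sys (a : Ix (s + 1) M → R) (k : Un n → R) (z : Un n) : R :=
  Sum.elim (fun j : Fin (2 * n + 5) => (eqp a k).coeff j) (fun _ => (gG k).eval (tT k)) (ixe n z)

/-- the open condition -/
noncomputable def opn (h0 : 0 ∈ M) (a : Ix (s + 1) M → R) (k : Un n → R) : R :=
  (gG k).derivative.eval (tT k) *
    (∏ i : Fin s, eval (Sum.elim (xx s k) fun _ => tT k) (pderiv (.inl i) (dis a))) *
    sub 2 a (fun _ => 0, ⟨0, h0⟩)

theorem xx_map (φ : R →+* S) (k : Un n → R) (i : Fin s) :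
    φ (xx s k i) = xx s (fun j => φ (k j)) i := by
  unfold xx
  split_ifs
  · rfl
  · exact map_zero φ

theorem gG_map (φ : R →+* S) (k : Un n → R) : (gG k).map φ = gG fun j => φ (k j) := by
  unfold gG
  rw [Polynomial.map_sum]
  refine Finset.sum_congr rfl fun e _ => ?_
  rw [Polynomial.map_mul, Polynomial.map_C, Polynomial.map_pow, Polynomial.map_X]

theorem hH_map (φ : R →+* S) (k : Un n → R) : (hH k).map φ = hH fun j => φ (k j) := by
  unfold hH
  rw [Polynomial.map_add, Polynomial.map_pow, Polynomial.map_X, Polynomial.map_sum]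
  congr 1
  refine Finset.sum_congr rfl fun e _ => ?_
  rw [Polynomial.map_mul, Polynomial.map_C, Polynomial.map_pow, Polynomial.map_X]

theorem eqp_map (φ : R →+* S) (a : Ix (s + 1) M → R) (k : Un n → R) :
    (eqp a k).map φ = eqp (fun e => φ (a e)) fun j => φ (k j) := by
  unfold eqp
  rw [Polynomial.map_sub, Polynomial.map_mul, Polynomial.map_pow, dsp_map, gG_map, hH_map]
  simp only [xx_map]

theorem sys_map (φ : R →+* S) (a : Ix (s + 1) M → R) (k : Un n → R) (z : Un n) :
    φ (sys a k z) = sys (fun e => φ (a e)) (fun j => φ (k j)) z := by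
  unfold sys
  rcases ixe n z with j | u
  · simp only [Sum.elim_inl]
    rw [← eqp_map, Polynomial.coeff_map]
  · simp only [Sum.elim_inr]
    rw [← gG_map]
    exact (Polynomial.eval_map_apply _ _).symm

theorem opn_map (φ : R →+* S) (h0 : 0 ∈ M) (a : Ix (s + 1) M → R) (k : Un n → R) :
    φ (opn h0 a k) = opn h0 (fun e => φ (a e)) fun j => φ (k j) := by
  unfold opn
  rw [map_mul, map_mul, map_prod]
  congr 1
  congr 1
  · rw [← gG_map, Polynomial.derivative_map]
    exact (Polynomial.eval_map_apply _ _).symm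
  · refine Finset.prod_congr rfl fun i _ => ?_
    rw [hom_eval, ← pderiv_map, map_dis]
    congr 2
    funext z
    rcases z with z | z
    · exact xx_map φ k z
    · rfl

theorem eqp_deg (hM : ∀ β ∈ M, β 0 ≤ n + 2) (a : Ix (s + 1) M → R) (k : Un n → R) :
    (eqp a k).natDegree < 2 * n + 5 := by
  refine Nat.lt_succ_of_le ((Polynomial.natDegree_sub_le _ _).trans (max_le ?_ ?_))
  · exact (dsp_deg hM _ _).trans (by omega)
  · have h1 : (gG k).natDegree ≤ 4 := by
      unfold gG
      refine Polynomial.natDegree_sum_le_of_forall_le _ _ fun e _ => ?_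
      exact (Polynomial.natDegree_C_mul_X_pow_le _ _).trans (by omega)
    have h2 : (hH k).natDegree ≤ n := by
      unfold hH
      refine (Polynomial.natDegree_add_le _ _).trans (max_le (Polynomial.natDegree_X_pow_le n) ?_)
      refine Polynomial.natDegree_sum_le_of_forall_le _ _ fun e _ => ?_
      exact (Polynomial.natDegree_C_mul_X_pow_le _ _).trans (by omega)
    have h3 : (hH k ^ 2).natDegree ≤ 2 * n := Polynomial.natDegree_pow_le_of_le 2 h2
    have h4 := Polynomial.natDegree_mul_le (p := gG k) (q := hH k ^ 2)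
    omega

/-- A solution of the system. -/
theorem eqp_eq_zero (hM : ∀ β ∈ M, β 0 ≤ n + 2) (a : Ix (s + 1) M → R) (k : Un n → R)
    (h : ∀ z, sys a k z = 0) : eqp a k = 0 ∧ (gG k).eval (tT k) = 0 := by
  constructor
  · ext j
    rw [Polynomial.coeff_zero]
    by_cases hj : j < 2 * n + 5
    · have h1 := h ((ixe n).symm (.inl ⟨j, hj⟩))
      unfold sys at h1
      rw [Equiv.apply_symm_apply] at h1
      exact h1
    · exact Polynomial.coeff_eq_zero_of_natDegree_lt ((eqp_deg hM a k).trans_le (not_lt.1 hj))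
  · have h1 := h ((ixe n).symm (.inr ()))
    unfold sys at h1
    rw [Equiv.apply_symm_apply] at h1
    exact h1

theorem sys_eq_zero (a : Ix (s + 1) M → R) (k : Un n → R)
    (h1 : eqp a k = 0) (h2 : (gG k).eval (tT k) = 0) (z : Un n) : sys a k z = 0 := by
  unfold sys
  rcases ixe n z with j | u
  · simp only [Sum.elim_inl]
    rw [h1, Polynomial.coeff_zero]
  · exact h2

end sys

end Pool.Agent.Helper60.RK
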