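import Mathlib
import Pool.Agent.Helper60.RK.Ms

/-!
# Multisections: dual numbers and the special form
-/

namespace Pool.Agent.Helper60.RK

open MvPolynomial Pool.Agent.Helper92.RK

section dual

open TrivSqZeroExt

theorem sum_pd_add {E I : Type} [Fintype I] (a0 : E → ℚ) (k0 v : I → ℚ)
    (p q : MvPolynomial (E ⊕ I) ℚ) :
    ∑ j, eval (Sum.elim a0 k0) (pderiv (.inr j) (p + q)) * v j =
      (∑ j, eval (Sum.elim a0 k0) (pderiv (.inr j) p) * v j) +
        ∑ j, eval (Sum.elim a0 k0) (pderiv (.inr j) q) * v j := by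
  rw [← Finset.sum_add_distrib]
  refine Finset.sum_congr rfl fun j _ => ?_
  rw [map_add, map_add, add_mul]

theorem sum_pd_mul {E I : Type} [Fintype I] (a0 : E → ℚ) (k0 v : I → ℚ)
    (p q : MvPolynomial (E ⊕ I) ℚ) :
    ∑ j, eval (Sum.elim a0 k0) (pderiv (.inr j) (p * q)) * v j =
      eval (Sum.elim a0 k0) p * (∑ j, eval (Sum.elim a0 k0) (pderiv (.inr j) q) * v j) +
        eval (Sum.elim a0 k0) q * ∑ j, eval (Sum.elim a0 k0) (pderiv (.inr j) p) * v j := by
  rw [Finset.mul_sum, Finset.mul_sum, ← Finset.sum_add_distrib]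
  refine Finset.sum_congr rfl fun j _ => ?_
  rw [Derivation.leibniz, map_add, smul_eq_mul, smul_eq_mul, map_mul, map_mul]
  ring

/-- The value at a dual point. -/
theorem dual_eq {E I : Type} [Fintype I] (a0 : E → ℚ) (k0 v : I → ℚ)
    (F : MvPolynomial (E ⊕ I) ℚ) :
    aeval (Sum.elim (fun e => (inl (a0 e) : DualNumber ℚ)) fun j => inl (k0 j) + inr (v j)) F =
      inl (eval (Sum.elim a0 k0) F) +
        inr (∑ j, eval (Sum.elim a0 k0) (pderiv (.inr j) F) * v j) := by
  classical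
  induction F using MvPolynomial.induction_on with
  | C a =>
    rw [aeval_C, eval_C]
    simp only [pderiv_C, map_zero, zero_mul, Finset.sum_const_zero, inr_zero, add_zero]
    rfl
  | add p q hp hq =>
    rw [map_add, hp, hq, sum_pd_add, map_add, inl_add, inr_add]
    abel
  | mul_X p z hp =>
    rw [map_mul, hp, aeval_X, sum_pd_mul, map_mul, eval_X]
    rcases z with e | i
    · have h : ∑ j, eval (Sum.elim a0 k0) (pderiv (.inr j) (X (.inl e) :
          MvPolynomial (E ⊕ I) ℚ)) * v j = 0 := by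
        refine Finset.sum_eq_zero fun j _ => ?_
        rw [pderiv_X_of_ne (by simp), map_zero, zero_mul]
      rw [h]
      ext
      · simp
      · simp
        ring
    · have h : ∑ j, eval (Sum.elim a0 k0) (pderiv (.inr j) (X (.inr i) :
          MvPolynomial (E ⊕ I) ℚ)) * v j = v i := by
        rw [Finset.sum_eq_single i]
        · rw [pderiv_X_self, map_one, one_mul]
        · intro j _ hj
          rw [pderiv_X_of_ne (by simpa using hj.symm), map_zero, zero_mul]
        · intro hh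
          exact absurd (Finset.mem_univ _) hh
      rw [h]
      ext
      · simp
      · simp
        ring

variable {n s : ℕ}

/-- the part of `hH` which is linear in the coefficients -/
noncomputable def hD (v : Un n → ℚ) : Polynomial ℚ :=
  ∑ j : Fin n, Polynomial.C (v (.inr (.inr (.inl j)))) * Polynomial.X ^ (j : ℕ)

theorem eval_sum_dual {J : Type} [Fintype J] (c w : J → ℚ) (d : J → ℕ) (t : ℚ) :
    (∑ j, Polynomial.C ((inl (c j) : DualNumber ℚ) + inr (w j)) * Polynomial.X ^ d j).eval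
      (inl t) = inl ((∑ j, Polynomial.C (c j) * Polynomial.X ^ d j).eval t) +
        inr ((∑ j, Polynomial.C (w j) * Polynomial.X ^ d j).eval t) := by
  rw [Polynomial.eval_finsetSum, Polynomial.eval_finsetSum, Polynomial.eval_finsetSum]
  simp only [Polynomial.eval_mul, Polynomial.eval_C, Polynomial.eval_pow, Polynomial.eval_X]
  ext
  · simp only [fst_sum, fst_mul, fst_add, fst_inl, fst_inr, fst_pow, add_zero]
  · simp only [snd_sum, snd_mul, snd_add, fst_add, snd_inl, snd_inr, fst_inl, fst_inr, fst_pow,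
      snd_pow, smul_eq_mul, zero_add, add_zero, mul_zero, smul_zero,
      op_smul_eq_mul]

theorem gG_dual (k v : Un n → ℚ) (t : ℚ) :
    (gG fun j => (inl (k j) : DualNumber ℚ) + inr (v j)).eval (inl t) =
      inl ((gG k).eval t) + inr ((gG v).eval t) :=
  eval_sum_dual (fun j : Fin 5 => k (.inr (.inl j))) (fun j => v (.inr (.inl j)))
    (fun j => (j : ℕ)) t

theorem hH_dual (k v : Un n → ℚ) (t : ℚ) :
    (hH fun j => (inl (k j) : DualNumber ℚ) + inr (v j)).eval (inl t) =
      inl ((hH k).eval t) + inr ((hD v).eval t) := by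
  have h := eval_sum_dual (fun j : Fin n => k (.inr (.inr (.inl j))))
    (fun j => v (.inr (.inr (.inl j)))) (fun j => (j : ℕ)) t
  unfold hH hD
  rw [Polynomial.eval_add, h, Polynomial.eval_add, Polynomial.eval_pow, Polynomial.eval_pow,
    Polynomial.eval_X, Polynomial.eval_X, inl_add]
  have h1 : (inl t : DualNumber ℚ) ^ n = inl (t ^ n) := inl_pow _ _
  rw [h1]
  abel

theorem zero_dual (k v : Un n → ℚ)
    (h : (gG fun j => (inl (k j) : DualNumber ℚ) + inr (v j)).eval (inl (tT k) + inr (tT v)) = 0) :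
    (gG v).eval (tT k) + (gG k).derivative.eval (tT k) * tT v = 0 := by
  rw [Polynomial.eval_add_of_sq_eq_zero _ _ _ (by
    rw [pow_two, inr_mul_inr]), gG_dual] at h
  have h1 := congrArg snd h
  simp only [snd_add, snd_inl, snd_inr, snd_mul, fst_inr, smul_eq_mul, snd_zero, zero_add,
    MulOpposite.op_zero, zero_smul, add_zero] at h1
  have h2 : ((gG fun j => (inl (k j) : DualNumber ℚ) + inr (v j)).derivative.eval
      (inl (tT k))).fst = (gG k).derivative.eval (tT k) := by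
    have h3 := Polynomial.eval_map_apply (f := (fstHom ℚ ℚ ℚ : DualNumber ℚ →ₐ[ℚ] ℚ).toRingHom)
      (p := (gG fun j => (inl (k j) : DualNumber ℚ) + inr (v j)).derivative) (inl (tT k))
    rw [← Polynomial.derivative_map, gG_map] at h3
    have h4 : (fun j => (fstHom ℚ ℚ ℚ : DualNumber ℚ →ₐ[ℚ] ℚ).toRingHom
        ((inl (k j) : DualNumber ℚ) + inr (v j))) = k := by
      funext j
      change fst ((inl (k j) : DualNumber ℚ) + inr (v j)) = k j
      simp
    rw [h4] at h3
    exact h3.symm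
  rw [h2] at h1
  exact h1

end dual

section lin

variable {s m : ℕ} {M : Finset (Fin 1 →₀ ℕ)}

/-- The coefficients of `P0 + ∑ i, x i * P i`. -/
noncomputable def lin (M : Finset (Fin 1 →₀ ℕ)) (P0 : Polynomial ℚ)
    (P : Fin s → Polynomial ℚ) (e : Ix s M) : ℚ :=
  (if e.1 = 0 then P0.coeff ((e.2 : Fin 1 →₀ ℕ) 0) else 0) +
    ∑ i, if e.1 = Pi.single i 1 then (P i).coeff ((e.2 : Fin 1 →₀ ℕ) 0) else 0

theorem sum_coeff (hM : ∀ k ≤ m, Finsupp.single 0 k ∈ M) (hM' : ∀ β ∈ M, β 0 ≤ m)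
    {R : Type*} [CommRing R] [Algebra ℚ R] (Q : Polynomial ℚ) (hQ : Q.natDegree ≤ m) :
    ∑ β : M, Polynomial.C (algebraMap ℚ R (Q.coeff ((β : Fin 1 →₀ ℕ) 0))) *
      Polynomial.X ^ ((β : Fin 1 →₀ ℕ) 0) = Q.map (algebraMap ℚ R) := by
  have h1 : Q = ∑ k ∈ Finset.range (m + 1), Polynomial.C (Q.coeff k) * Polynomial.X ^ k :=
    Polynomial.as_sum_range_C_mul_X_pow' Q (Nat.lt_succ_of_le hQ)
  conv_rhs => rw [h1]
  rw [Polynomial.map_sum]
  refine Finset.sum_bij (fun β _ => (β : Fin 1 →₀ ℕ) 0) (fun β _ => ?_) (fun β _ γ _ h => ?_)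
    (fun k hk => ?_) (fun β _ => ?_)
  · exact Finset.mem_range.2 (Nat.lt_succ_of_le (hM' _ β.2))
  · refine Subtype.ext (Finsupp.ext fun j => ?_)
    rw [Fin.fin_one_eq_zero j]
    exact h
  · refine ⟨⟨Finsupp.single 0 k, hM k (by
      have := Finset.mem_range.1 hk
      omega)⟩, Finset.mem_univ _, ?_⟩
    simp
  · rw [Polynomial.map_mul, Polynomial.map_C, Polynomial.map_pow, Polynomial.map_X]

theorem pl_lin (hM : ∀ k ≤ m, Finsupp.single 0 k ∈ M) (hM' : ∀ β ∈ M, β 0 ≤ m)
    {R : Type*} [CommRing R] [Algebra ℚ R] (P0 : Polynomial ℚ) (P : Fin s → Polynomial ℚ)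
    (h0 : P0.natDegree ≤ m) (h1 : ∀ i, (P i).natDegree ≤ m) (x : Fin s → R) :
    pl (fun e => algebraMap ℚ R (lin M P0 P e)) x =
      P0.map (algebraMap ℚ R) + ∑ i, Polynomial.C (x i) * (P i).map (algebraMap ℚ R) := by
  classical
  have key : ∀ (e0 : Fin s → Fin 3) (Q : Polynomial ℚ), Q.natDegree ≤ m →
      ∑ e : Ix s M, Polynomial.C (algebraMap ℚ R (if e.1 = e0 then
        Q.coeff ((e.2 : Fin 1 →₀ ℕ) 0) else 0) * ∏ i, x i ^ (e.1 i : ℕ)) *
          Polynomial.X ^ ((e.2 : Fin 1 →₀ ℕ) 0) =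
        Polynomial.C (∏ i, x i ^ (e0 i : ℕ)) * Q.map (algebraMap ℚ R) := by
    intro e0 Q hQ
    rw [Fintype.sum_prod_type, Finset.sum_eq_single e0]
    · rw [← sum_coeff hM hM' Q hQ, Finset.mul_sum]
      refine Finset.sum_congr rfl fun β _ => ?_
      rw [if_pos rfl, Polynomial.C_mul]
      ring
    · intro e _ he
      refine Finset.sum_eq_zero fun β _ => ?_
      rw [if_neg he]
      simp
    · intro h
      exact absurd (Finset.mem_univ _) h
  unfold pl lin
  have h2 : ∀ e : Ix s M, Polynomial.C (algebraMap ℚ R ((if e.1 = 0 then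
      P0.coeff ((e.2 : Fin 1 →₀ ℕ) 0) else 0) + ∑ i, if e.1 = Pi.single i 1 then
        (P i).coeff ((e.2 : Fin 1 →₀ ℕ) 0) else 0) * ∏ i, x i ^ (e.1 i : ℕ)) *
          Polynomial.X ^ ((e.2 : Fin 1 →₀ ℕ) 0) =
      Polynomial.C (algebraMap ℚ R (if e.1 = 0 then
        P0.coeff ((e.2 : Fin 1 →₀ ℕ) 0) else 0) * ∏ i, x i ^ (e.1 i : ℕ)) *
          Polynomial.X ^ ((e.2 : Fin 1 →₀ ℕ) 0) +
      ∑ i', Polynomial.C (algebraMap ℚ R (if e.1 = Pi.single i' 1 then
        (P i').coeff ((e.2 : Fin 1 →₀ ℕ) 0) else 0) * ∏ i, x i ^ (e.1 i : ℕ)) *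
          Polynomial.X ^ ((e.2 : Fin 1 →₀ ℕ) 0) := by
    intro e
    rw [map_add, add_mul, Polynomial.C_add, add_mul, map_sum, Finset.sum_mul, map_sum,
      Finset.sum_mul]
  rw [Finset.sum_congr rfl fun e _ => h2 e, Finset.sum_add_distrib, Finset.sum_comm, key 0 P0 h0]
  congr 1
  · simp
  · refine Finset.sum_congr rfl fun i _ => ?_
    rw [key (Pi.single i 1) (P i) (h1 i)]
    congr 2
    rw [Finset.prod_eq_single i]
    · simp
    · intro j _ hj
      rw [Pi.single_eq_of_ne hj]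
      simp
    · intro h
      exact absurd (Finset.mem_univ _) h

end lin

end Pool.Agent.Helper60.RK
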