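import Mathlib
import Pool.Agent.Helper60.RK.Ms2

/-!
# Multisections: the example and the Jacobian
-/

namespace Pool.Agent.Helper60.RK

open MvPolynomial Pool.Agent.Helper92.RK
open TrivSqZeroExt hiding sub

variable {n s m : ℕ} {M : Finset (Fin 1 →₀ ℕ)}

/-- The form `(A0 + ∑ x i A i) y ^ 2 + (D0 + ∑ x i D i)`. -/
noncomputable def exf (M : Finset (Fin 1 →₀ ℕ)) (A0 D0 : Polynomial ℚ)
    (A D : Fin s → Polynomial ℚ) (e : Ix (s + 1) M) : ℚ :=
  if e.1 (Fin.last s) = 2 then lin M A0 A (fun i => e.1 i.castSucc, e.2)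
  else if e.1 (Fin.last s) = 0 then lin M D0 D (fun i => e.1 i.castSucc, e.2) else 0

variable (A0 D0 : Polynomial ℚ) (A D : Fin s → Polynomial ℚ)

theorem sub_two : sub 2 (exf M A0 D0 A D) = lin M A0 A := by
  funext e
  unfold sub exf
  simp

theorem sub_zero' : sub 0 (exf M A0 D0 A D) = lin M D0 D := by
  funext e
  unfold sub exf
  simp

theorem sub_one' : sub 1 (exf M A0 D0 A D) = 0 := by
  funext e
  unfold sub exf
  simp

variable {A0 D0 A D}

theorem dsp_ex (hM : ∀ k ≤ m, Finsupp.single 0 k ∈ M) (hM' : ∀ β ∈ M, β 0 ≤ m)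
    {R : Type*} [CommRing R] [Algebra ℚ R] (hA0 : A0.natDegree ≤ m) (hD0 : D0.natDegree ≤ m)
    (hA : ∀ i, (A i).natDegree ≤ m) (hD : ∀ i, (D i).natDegree ≤ m) (x : Fin s → R) :
    dsp (fun e => algebraMap ℚ R (exf M A0 D0 A D e)) x =
      - 4 * (A0.map (algebraMap ℚ R) + ∑ i, Polynomial.C (x i) * (A i).map (algebraMap ℚ R)) *
        (D0.map (algebraMap ℚ R) + ∑ i, Polynomial.C (x i) * (D i).map (algebraMap ℚ R)) := by
  have h2 : sub 2 (fun e => algebraMap ℚ R (exf M A0 D0 A D e)) =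
      fun e => algebraMap ℚ R (lin M A0 A e) := by
    funext e
    rw [← sub_two A0 D0 A D]
    rfl
  have h0 : sub 0 (fun e => algebraMap ℚ R (exf M A0 D0 A D e)) =
      fun e => algebraMap ℚ R (lin M D0 D e) := by
    funext e
    rw [← sub_zero' A0 D0 A D]
    rfl
  have h1 : sub 1 (fun e => algebraMap ℚ R (exf M A0 D0 A D e)) = 0 := by
    funext e
    have h3 : sub 1 (fun e => algebraMap ℚ R (exf M A0 D0 A D e)) e =
        algebraMap ℚ R (sub 1 (exf M A0 D0 A D) e) := rfl
    rw [h3, sub_one' A0 D0 A D]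
    simp
  have h4 : pl (0 : Ix s M → R) x = 0 := by
    unfold pl
    simp
  unfold dsp
  rw [h2, h1, h0, pl_lin hM hM' A0 A hA0 hA x, pl_lin hM hM' D0 D hD0 hD x, h4]
  ring

theorem map_eval_dual (P : Polynomial ℚ) (t : ℚ) :
    (P.map (algebraMap ℚ (DualNumber ℚ))).eval (inl t) = inl (P.eval t) := by
  have h := Polynomial.eval_map_apply (f := algebraMap ℚ (DualNumber ℚ)) (p := P) t
  exact h

/-- The discriminant of the example at a dual point. -/
theorem dsp_ex_dual (hM : ∀ k ≤ m, Finsupp.single 0 k ∈ M) (hM' : ∀ β ∈ M, β 0 ≤ m)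
    (hA0 : A0.natDegree ≤ m) (hD0 : D0.natDegree ≤ m)
    (hA : ∀ i, (A i).natDegree ≤ m) (hD : ∀ i, (D i).natDegree ≤ m) (w : Fin s → ℚ) (t : ℚ) :
    (dsp (fun e => algebraMap ℚ (DualNumber ℚ) (exf M A0 D0 A D e))
      (fun i => inr (w i))).eval (inl t) =
      inl ((-4 * A0 * D0).eval t) +
        inr ((-4 * ∑ i, Polynomial.C (w i) * (A i * D0 + A0 * D i)).eval t) := by
  have key : ∀ (P0 : Polynomial ℚ) (P : Fin s → Polynomial ℚ),
      (P0.map (algebraMap ℚ (DualNumber ℚ)) + ∑ i, Polynomial.C (inr (w i) : DualNumber ℚ) *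
        (P i).map (algebraMap ℚ (DualNumber ℚ))).eval (inl t) =
        inl (P0.eval t) + inr ((∑ i, Polynomial.C (w i) * P i).eval t) := by
    intro P0 P
    rw [Polynomial.eval_add, map_eval_dual, Polynomial.eval_finsetSum,
      Polynomial.eval_finsetSum]
    congr 1
    simp only [Polynomial.eval_mul, Polynomial.eval_C, map_eval_dual]
    ext
    · simp only [fst_sum, fst_mul, fst_inr, zero_mul, Finset.sum_const_zero]
    · simp only [snd_sum, snd_mul, snd_inr, snd_inl, fst_inr, fst_inl, smul_eq_mul,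
        op_smul_eq_mul, zero_mul, zero_add, mul_zero]
  rw [dsp_ex hM hM' hA0 hD0 hA hD, Polynomial.eval_mul, Polynomial.eval_mul, key A0 A, key D0 D]
  have h4 : (-4 : Polynomial (DualNumber ℚ)).eval (inl t) = inl (-4 : ℚ) := by
    rw [Polynomial.eval_neg, Polynomial.eval_ofNat]
    rfl
  rw [h4]
  have h5 : ∑ i, Polynomial.C (w i) * (A i * D0 + A0 * D i) =
      (∑ i, Polynomial.C (w i) * A i) * D0 + A0 * ∑ i, Polynomial.C (w i) * D i := by
    rw [Finset.sum_mul, Finset.mul_sum, ← Finset.sum_add_distrib]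
    exact Finset.sum_congr rfl fun i _ => by ring
  rw [h5]
  ext
  · simp only [fst_mul, fst_add, fst_inl, fst_inr, add_zero, Polynomial.eval_mul,
      Polynomial.eval_neg, Polynomial.eval_ofNat]
  · simp only [snd_mul, snd_add, fst_mul, fst_add, fst_inl, fst_inr, snd_inl, snd_inr, add_zero,
      zero_add, smul_eq_mul, op_smul_eq_mul, Polynomial.eval_mul, Polynomial.eval_add,
      Polynomial.eval_neg, Polynomial.eval_ofNat, mul_zero, zero_mul, smul_zero]
    ring

theorem dual_one {σ : Type*} [DecidableEq σ] (x : σ → ℚ) (i : σ) (F : MvPolynomial σ ℚ) :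
    aeval (fun z => (inl (x z) : DualNumber ℚ) + inr (if z = i then 1 else 0)) F =
      inl (eval x F) + inr (eval x (pderiv i F)) := by
  induction F using MvPolynomial.induction_on with
  | C a =>
    rw [aeval_C, eval_C]
    simp only [pderiv_C, map_zero, inr_zero, add_zero]
    rfl
  | add p q hp hq =>
    rw [map_add, hp, hq, map_add, map_add, map_add, inl_add, inr_add]
    abel
  | mul_X p z hp =>
    rw [map_mul, hp, aeval_X, Derivation.leibniz, map_mul, eval_X, smul_eq_mul, smul_eq_mul,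
      map_add, map_mul, map_mul, eval_X]
    by_cases h : z = i
    · subst h
      rw [pderiv_X_self, map_one, if_pos rfl]
      ext
      · simp only [fst_mul, fst_add, fst_inl, fst_inr, add_zero]
      · simp only [snd_mul, snd_add, fst_add, fst_inl, fst_inr, snd_inl, snd_inr, add_zero,
          zero_add, smul_eq_mul, op_smul_eq_mul]
        ring
    · rw [pderiv_X_of_ne h, map_zero, if_neg h]
      ext
      · simp only [fst_mul, fst_add, fst_inl, fst_inr, add_zero]
      · simp only [snd_mul, snd_add, fst_add, fst_inl, fst_inr, snd_inl, snd_inr, add_zero,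
          zero_add, smul_eq_mul, op_smul_eq_mul]
        ring

/-- The derivatives of the discriminant of the example. -/
theorem pd_ex (hM : ∀ k ≤ m, Finsupp.single 0 k ∈ M) (hM' : ∀ β ∈ M, β 0 ≤ m)
    (hA0 : A0.natDegree ≤ m) (hD0 : D0.natDegree ≤ m)
    (hA : ∀ i, (A i).natDegree ≤ m) (hD : ∀ i, (D i).natDegree ≤ m) (i : Fin s) (t : ℚ) :
    eval (Sum.elim (fun _ => 0) fun _ => t) (pderiv (.inl i) (dis (exf M A0 D0 A D))) =
      -4 * (A i * D0 + A0 * D i).eval t := by
  classical
  have h1 := dual_one (Sum.elim (fun _ : Fin s => (0 : ℚ)) fun _ : Fin 1 => t) (.inl i)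
    (dis (exf M A0 D0 A D))
  have h2 := dsp_ex_dual hM hM' hA0 hD0 hA hD (Pi.single i 1) t
  rw [dsp_eval] at h2
  have h3 : dis (fun e => algebraMap ℚ (DualNumber ℚ) (exf M A0 D0 A D e)) =
      map (algebraMap ℚ (DualNumber ℚ)) (dis (exf M A0 D0 A D)) := (map_dis _ _).symm
  rw [h3, eval_map, ← aeval_def] at h2
  have h4 : (Sum.elim (fun j : Fin s => (inr ((Pi.single i 1 : Fin s → ℚ) j) : DualNumber ℚ))
      fun _ : Fin 1 => inl t) = fun z => (inl ((Sum.elim (fun _ : Fin s => (0 : ℚ))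
        fun _ : Fin 1 => t) z) : DualNumber ℚ) + inr (if z = .inl i then 1 else 0) := by
    funext z
    rcases z with z | z
    · by_cases hz : z = i
      · subst hz
        simp
      · simp [hz]
    · simp
  rw [h4, h1] at h2
  have h5 := congrArg snd h2
  simp only [snd_add, snd_inl, snd_inr, zero_add] at h5
  rw [h5, Finset.sum_eq_single i]
  · rw [Pi.single_eq_same, Polynomial.C_1, one_mul, Polynomial.eval_mul, Polynomial.eval_neg,
      Polynomial.eval_ofNat]
  · intro j _ hj
    rw [Pi.single_eq_of_ne hj]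
    simp
  · intro h
    exact absurd (Finset.mem_univ _) h

end Pool.Agent.Helper60.RK
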