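import Mathlib
import Pool.Agent.Helper60.RK.Ms3

/-!
# Multisections: existence for general coefficients
-/

namespace Pool.Agent.Helper60.RK

open MvPolynomial Pool.Agent.Helper92.RK
open TrivSqZeroExt hiding sub

variable {n s : ℕ} {M : Finset (Fin 1 →₀ ℕ)}

/-- The example for `n` coordinates. -/
def HasEx (n : ℕ) : Prop := ∃ (A0 D0 G H : Polynomial ℚ) (A D : Fin n → Polynomial ℚ) (t0 : ℚ),
    A0.natDegree ≤ n + 2 ∧ D0.natDegree ≤ n + 2 ∧ (∀ i, (A i).natDegree ≤ n + 2) ∧
    (∀ i, (D i).natDegree ≤ n + 2) ∧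
    -4 * A0 * D0 = G * H ^ 2 ∧ H.Monic ∧ H.natDegree = n ∧ G.natDegree ≤ 4 ∧
    G.eval t0 = 0 ∧ G.derivative.eval t0 ≠ 0 ∧ A0.coeff 0 ≠ 0 ∧ A0.eval t0 ≠ 0 ∧
    (∀ i, (A i * D0 + A0 * D i).eval t0 ≠ 0) ∧
    ∀ (dc : Fin n → ℚ) (dG dH : Polynomial ℚ) (dt : ℚ), dG.natDegree ≤ 4 → dH.degree < n →
      -4 * ∑ i, Polynomial.C (dc i) * (A i * D0 + A0 * D i) = H * (dG * H + 2 * G * dH) →
      dG.eval t0 + G.derivative.eval t0 * dt = 0 → dc = 0 ∧ dG = 0 ∧ dH = 0 ∧ dt = 0

theorem gG_coeff (G : Polynomial ℚ) (hG : G.natDegree ≤ 4) (k : Un n → ℚ)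
    (hk : ∀ j : Fin 5, k (.inr (.inl j)) = G.coeff j) : gG k = G := by
  unfold gG
  simp only [hk]
  rw [Fin.sum_univ_eq_sum_range (fun j => Polynomial.C (G.coeff j) * Polynomial.X ^ j) 5]
  exact (Polynomial.as_sum_range_C_mul_X_pow' G (by omega)).symm

theorem hH_coeff (H : Polynomial ℚ) (hH : H.Monic) (hn : H.natDegree = n) (k : Un n → ℚ)
    (hk : ∀ j : Fin n, k (.inr (.inr (.inl j))) = H.coeff j) :
    Pool.Agent.Helper60.RK.hH k = H := by
  unfold Pool.Agent.Helper60.RK.hH
  simp only [hk]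
  rw [Fin.sum_univ_eq_sum_range (fun j => Polynomial.C (H.coeff j) * Polynomial.X ^ j) n]
  have h := hH.as_sum
  rw [hn] at h
  exact h.symm

theorem sum_fin_coeff {N : ℕ} (c : Fin N → ℚ) (h : ∑ j : Fin N, Polynomial.C (c j) *
    Polynomial.X ^ (j : ℕ) = 0) (j : Fin N) : c j = 0 := by
  have h1 := congrArg (fun p => Polynomial.coeff p (j : ℕ)) h
  simp only [Polynomial.finsetSum_coeff, Polynomial.coeff_C_mul_X_pow, Polynomial.coeff_zero]
    at h1
  rw [Finset.sum_eq_single j] at h1
  · simpa using h1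
  · intro i _ hi
    rw [if_neg]
    intro hh
    exact hi (Fin.ext hh.symm)
  · intro hh
    exact absurd (Finset.mem_univ _) hh

theorem sum_ext (hns : n ≤ s) (v : Un n → ℚ) (f : Fin n → Polynomial ℚ)
    (g : Fin s → Polynomial ℚ) (hg : ∀ i : Fin n, g (Fin.castLE hns i) = f i) :
    ∑ i : Fin s, Polynomial.C (xx s v i) * g i = ∑ i : Fin n, Polynomial.C (v (.inl i)) * f i := by
  refine (Fintype.sum_of_injective (Fin.castLE hns) (Fin.castLE_injective hns) _ _ ?_ ?_).symm
  · intro i hi
    have h : ¬ (i : ℕ) < n := by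
      intro h
      exact hi ⟨⟨i, h⟩, by ext; rfl⟩
    unfold xx
    rw [dif_neg h, map_zero, zero_mul]
  · intro i
    unfold xx
    rw [dif_pos (show ((Fin.castLE hns i : Fin s) : ℕ) < n from i.2), hg]
    rfl

/-- The universal system. -/
noncomputable def gsys (s : ℕ) (M : Finset (Fin 1 →₀ ℕ)) (z : Un n) :
    MvPolynomial (Ix (s + 1) M ⊕ Un n) ℚ :=
  sys (fun e => X (.inl e)) (fun j => X (.inr j)) z

theorem exists_ms_of (hex : HasEx n) (hns : n ≤ s) (h0 : 0 ∈ M)
    (hM : ∀ k ≤ n + 2, Finsupp.single 0 k ∈ M) (hM' : ∀ β ∈ M, β 0 ≤ n + 2) :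
    ∃ Δ : MvPolynomial (Ix (s + 1) M) ℚ, Δ ≠ 0 ∧
    ∀ (K : Type) [Field K] [CharZero K] (a : Ix (s + 1) M → K), aeval a Δ ≠ 0 →
      ∃ (L : Type) (_ : Field L) (_ : CharZero L) (_ : Algebra K L) (_ : FiniteDimensional K L)
        (k : Un n → L), eqp (fun e => algebraMap K L (a e)) k = 0 ∧ (gG k).eval (tT k) = 0 ∧
          opn h0 (fun e => algebraMap K L (a e)) k ≠ 0 := by
  classical
  obtain ⟨A0, D0, G, H, A, D, t0, hA0, hD0, hA, hD, hGH, hmon, hHd, hGd, hG0, hG1, hc0, hAt,
    hAD, hker⟩ := hex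
  -- the extended example
  let A' : Fin s → Polynomial ℚ := fun i => if h : (i : ℕ) < n then A ⟨i, h⟩ else 0
  let D' : Fin s → Polynomial ℚ := fun i => if h : (i : ℕ) < n then D ⟨i, h⟩ else 1
  have hA' : ∀ i, (A' i).natDegree ≤ n + 2 := by
    intro i
    by_cases h : (i : ℕ) < n
    · simp only [A', dif_pos h]
      exact hA _
    · simp only [A', dif_neg h]
      simp
  have hD' : ∀ i, (D' i).natDegree ≤ n + 2 := by
    intro i
    by_cases h : (i : ℕ) < n
    · simp only [D', dif_pos h]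
      exact hD _
    · simp only [D', dif_neg h]
      simp
  have hAD' : ∀ i, (A' i * D0 + A0 * D' i).eval t0 ≠ 0 := by
    intro i
    by_cases h : (i : ℕ) < n
    · simp only [A', D', dif_pos h]
      exact hAD _
    · simp only [A', D', dif_neg h]
      simpa using hAt
  let a0 : Ix (s + 1) M → ℚ := exf M A0 D0 A' D'
  let k0 : Un n → ℚ := Sum.elim (fun _ => 0) (Sum.elim (fun j => G.coeff j)
    (Sum.elim (fun j => H.coeff j) fun _ => t0))
  have hgk : gG k0 = G := gG_coeff G hGd k0 fun j => rfl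
  have hhk : Pool.Agent.Helper60.RK.hH k0 = H := hH_coeff H hmon hHd k0 fun j => rfl
  have hxk : xx s k0 = fun _ => 0 := by
    funext i
    unfold xx
    split_ifs
    · rfl
    · rfl
  have htk : tT k0 = t0 := rfl
  have hE : eqp a0 k0 = 0 := by
    unfold eqp
    have h1 := dsp_ex (R := ℚ) hM hM' hA0 hD0 hA' hD' (fun _ => 0)
    rw [hgk, hhk, hxk]
    have h2 : (fun e => algebraMap ℚ ℚ (exf M A0 D0 A' D' e)) = a0 := rfl
    rw [h2] at h1
    rw [h1]
    simp only [Polynomial.C_0, zero_mul, Finset.sum_const_zero, add_zero,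
      Algebra.algebraMap_self, Polynomial.map_id]
    rw [← hGH, sub_self]
  have hz : (gG k0).eval (tT k0) = 0 := by rw [hgk, htk, hG0]
  -- values
  have hval : ∀ z, eval (Sum.elim a0 k0) (gsys s M z) = sys a0 k0 z := by
    intro z
    unfold gsys
    rw [sys_map (eval (Sum.elim a0 k0))]
    simp only [eval_X, Sum.elim_inl, Sum.elim_inr]
  have hopn : opn h0 a0 k0 ≠ 0 := by
    unfold opn
    rw [hgk, htk, hxk]
    refine mul_ne_zero (mul_ne_zero hG1 (Finset.prod_ne_zero_iff.2 fun i _ => ?_)) ?_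
    · rw [pd_ex hM hM' hA0 hD0 hA' hD' i t0]
      exact mul_ne_zero (by norm_num) (hAD' i)
    · rw [show Helper92.RK.sub 2 a0 = lin M A0 A' from sub_two A0 D0 A' D']
      unfold lin
      rw [if_pos (show ((fun _ => 0, ⟨0, h0⟩) : Ix s M).1 = 0 from rfl), Finset.sum_eq_zero,
        add_zero]
      · exact hc0
      · intro i _
        rw [if_neg]
        intro hh
        have := congrFun hh i
        simp at this
  obtain ⟨Δ, hΔ, hall⟩ := Pool.Agent.Helper76.XN.et (E := Ix (s + 1) M) (I := Un n)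
    (fun z => gsys s M z) (opn h0 (fun e => X (.inl e)) fun j => X (.inr j)) a0 k0
    (fun z => by rw [hval, sys_eq_zero a0 k0 hE hz])
    (by
      intro hdet
      obtain ⟨v, hv, hMv⟩ := Matrix.exists_mulVec_eq_zero_iff.2 hdet
      apply hv
      have hd : ∀ z, sys (fun e => (inl (a0 e) : DualNumber ℚ))
          (fun j => inl (k0 j) + inr (v j)) z = 0 := by
        intro z
        have h1 := dual_eq a0 k0 v (gsys s M z)
        rw [hval, sys_eq_zero a0 k0 hE hz] at h1
        have h2 : ∑ j, eval (Sum.elim a0 k0) (pderiv (.inr j) (gsys s M z)) * v j = 0 :=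
          congrFun hMv z
        rw [h2, inl_zero, inr_zero, add_zero] at h1
        rw [← h1]
        unfold gsys
        have h3 := sys_map (aeval (Sum.elim (fun e => (inl (a0 e) : DualNumber ℚ))
          fun j => inl (k0 j) + inr (v j)) :
            MvPolynomial (Ix (s + 1) M ⊕ Un n) ℚ →ₐ[ℚ] DualNumber ℚ).toRingHom
          (fun e => X (.inl e)) (fun j => X (.inr j)) z
        refine Eq.symm (h3.trans ?_)
        congr 1
        · funext e
          exact aeval_X _ _
        · funext j
          exact aeval_X _ _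
      obtain ⟨h1, h2⟩ := eqp_eq_zero hM' _ _ hd
      have h3 := zero_dual k0 v h2
      rw [htk, hgk] at h3
      have h4 : -4 * ∑ i : Fin n, Polynomial.C (v (.inl i)) * (A i * D0 + A0 * D i) =
          H * (gG v * H + 2 * G * Pool.Agent.Helper60.RK.hD v) := by
        refine Polynomial.funext fun t => ?_
        have h5 := congrArg (fun p => Polynomial.eval (inl t) p) h1
        simp only [eqp, Polynomial.eval_sub, Polynomial.eval_mul, Polynomial.eval_pow,
          Polynomial.eval_zero] at h5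
        have hx : (xx s fun j => (inl (k0 j) : DualNumber ℚ) + inr (v j)) =
            fun i => inr (xx s v i) := by
          funext i
          unfold xx
          split_ifs with h
          · change (inl (0 : ℚ) : DualNumber ℚ) + inr _ = _
            rw [inl_zero, zero_add]
          · rw [inr_zero]
        have h6 := dsp_ex_dual hM hM' hA0 hD0 hA' hD' (xx s v) t
        rw [hx] at h5
        have h7 : (fun e => algebraMap ℚ (DualNumber ℚ) (exf M A0 D0 A' D' e)) =
            fun e => (inl (a0 e) : DualNumber ℚ) := rfl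
        rw [h7] at h6
        rw [h6, gG_dual, hH_dual, hgk, hhk] at h5
        have h8 := congrArg snd h5
        simp only [snd_sub, snd_add, snd_inl, snd_inr, snd_mul, fst_add, fst_inl, fst_inr,
          add_zero, zero_add, smul_eq_mul, op_smul_eq_mul, snd_zero, pow_two, fst_mul] at h8
        rw [sum_ext hns v (fun i => A i * D0 + A0 * D i) _ (by
          intro i
          simp only [A', D']
          rw [dif_pos (show ((Fin.castLE hns i : Fin s) : ℕ) < n from i.2),
            dif_pos (show ((Fin.castLE hns i : Fin s) : ℕ) < n from i.2)]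
          rfl)] at h8
        have h9 : (H * (gG v * H + 2 * G * Pool.Agent.Helper60.RK.hD v)).eval t =
            H.eval t * ((gG v).eval t * H.eval t +
              2 * G.eval t * (Pool.Agent.Helper60.RK.hD v).eval t) := by
          simp only [Polynomial.eval_mul, Polynomial.eval_add, Polynomial.eval_ofNat]
        rw [h9]
        linear_combination h8
      have hgd : (gG v).natDegree ≤ 4 := by
        unfold gG
        refine Polynomial.natDegree_sum_le_of_forall_le _ _ fun e _ => ?_
        exact (Polynomial.natDegree_C_mul_X_pow_le _ _).trans (by omega)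
      obtain ⟨r1, r2, r3, r4⟩ := hker (fun i => v (.inl i)) (gG v) (Pool.Agent.Helper60.RK.hD v) (tT v) hgd
        (Polynomial.degree_sum_fin_lt _) h4 h3
      funext j
      rcases j with j | j | j | j
      · exact congrFun r1 j
      · exact sum_fin_coeff _ r2 j
      · exact sum_fin_coeff _ r3 j
      · exact r4)
    (by
      rw [opn_map (eval (Sum.elim a0 k0))]
      simp only [eval_X, Sum.elim_inl, Sum.elim_inr]
      exact hopn)
  refine ⟨Δ, hΔ, fun K _ _ a ha => ?_⟩
  obtain ⟨L, i1, i2, i3, i4, k, hF, -, hG⟩ := hall K a ha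
  have hs : ∀ z, sys (fun e => algebraMap K L (a e)) k z = 0 := by
    intro z
    rw [← hF z]
    unfold gsys
    have h3 := sys_map (aeval (Sum.elim (fun e => algebraMap K L (a e)) k) :
            MvPolynomial (Ix (s + 1) M ⊕ Un n) ℚ →ₐ[ℚ] L).toRingHom
          (fun e => X (.inl e)) (fun j => X (.inr j)) z
    refine Eq.symm (h3.trans ?_)
    congr 1
    · funext e
      exact aeval_X _ _
    · funext j
      exact aeval_X _ _
  obtain ⟨h1, h2⟩ := eqp_eq_zero hM' _ _ hs
  refine ⟨L, i1, i2, i3, i4, k, h1, h2, ?_⟩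
  have h3 := opn_map (aeval (Sum.elim (fun e => algebraMap K L (a e)) k) :
            MvPolynomial (Ix (s + 1) M ⊕ Un n) ℚ →ₐ[ℚ] L).toRingHom h0
          (fun e => X (.inl e)) (fun j => X (.inr j))
  have h4 : (fun e : Ix (s + 1) M => (aeval (Sum.elim (fun e => algebraMap K L (a e)) k) :
            MvPolynomial (Ix (s + 1) M ⊕ Un n) ℚ →ₐ[ℚ] L).toRingHom (X (.inl e))) =
      fun e => algebraMap K L (a e) := by
    funext e
    exact aeval_X _ _
  have h5 : (fun j : Un n => (aeval (Sum.elim (fun e => algebraMap K L (a e)) k) :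
            MvPolynomial (Ix (s + 1) M ⊕ Un n) ℚ →ₐ[ℚ] L).toRingHom (X (.inr j))) = k := by
    funext e
    exact aeval_X _ _
  rw [h4, h5] at h3
  rw [← h3]
  exact hG

end Pool.Agent.Helper60.RK
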