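import Mathlib
import Pool.Agent.Helper60.RK.Ms4
import Pool.Agent.Helper23.RK.Ex

/-!
# Multisections: the statement for general coefficients
-/

namespace Pool.Agent.Helper60.RK

open MvPolynomial Pool.Agent.Helper92.RK

/-- The exponents `0, .., m` of one variable. -/
noncomputable def M1 (m : ℕ) : Finset (Fin 1 →₀ ℕ) :=
  (Finset.range (m + 1)).image fun k => Finsupp.single 0 k

theorem mem_M1 {m k : ℕ} (hk : k ≤ m) : Finsupp.single 0 k ∈ M1 m := by
  unfold M1
  exact Finset.mem_image_of_mem _ (Finset.mem_range.2 (Nat.lt_succ_of_le hk))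

theorem le_of_M1 {m : ℕ} {β : Fin 1 →₀ ℕ} (h : β ∈ M1 m) : β 0 ≤ m := by
  unfold M1 at h
  obtain ⟨k, hk, rfl⟩ := Finset.mem_image.1 h
  have := Finset.mem_range.1 hk
  simp only [Finsupp.single_eq_same]
  omega

/-- B2 -/
theorem exists_ms {s m : ℕ} (hs : 1 ≤ s) (hm : 3 ≤ m) (hms : m ≤ s + 2) :
    ∃ Δ : MvPolynomial (Ix (s + 1) (M1 m)) ℚ, Δ ≠ 0 ∧
    ∀ (K : Type) [Field K] [CharZero K] (a : Ix (s + 1) (M1 m) → K), aeval a Δ ≠ 0 →
      ∃ (L : Type) (_ : Field L) (_ : CharZero L) (_ : Algebra K L) (_ : FiniteDimensional K L)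
        (c : Fin s → L) (G H : Polynomial L) (t₀ : L),
        (∀ t, eval (Sum.elim c fun _ => t) (dis fun e => algebraMap K L (a e)) =
          G.eval t * H.eval t ^ 2) ∧
        G.natDegree ≤ 4 ∧ H ≠ 0 ∧ G.eval t₀ = 0 ∧ G.derivative.eval t₀ ≠ 0 ∧
        (∀ i : Fin s, eval (Sum.elim c fun _ => t₀) (pderiv (.inl i)
          (dis fun e => algebraMap K L (a e))) ≠ 0) ∧
        form (sub 2 fun e => algebraMap K L (a e)) ≠ 0 := by
  obtain ⟨n, rfl⟩ : ∃ n, m = n + 2 := ⟨m - 2, by omega⟩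
  have h0 : 0 ∈ M1 (n + 2) := by
    have h := mem_M1 (m := n + 2) (k := 0) (by omega)
    rwa [Finsupp.single_zero] at h
  obtain ⟨Δ, hΔ, H⟩ := exists_ms_of (n := n) (s := s) (M := M1 (n + 2))
    (Pool.Agent.Helper23.RK.exists_ex n (by omega)) (by omega) h0
    (fun k hk => mem_M1 hk) fun β hβ => le_of_M1 hβ
  refine ⟨Δ, hΔ, fun K _ _ a ha => ?_⟩
  obtain ⟨L, i1, i2, i3, i4, k, h1, h2, h3⟩ := H K a ha
  unfold opn at h3
  have h4 := left_ne_zero_of_mul h3
  refine ⟨L, i1, i2, i3, i4, xx s k, gG k, hH k, tT k, fun t => ?_, ?_, ?_, h2,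
    left_ne_zero_of_mul h4, fun i => ?_, ?_⟩
  · rw [← dsp_eval]
    unfold eqp at h1
    rw [sub_eq_zero.1 h1, Polynomial.eval_mul, Polynomial.eval_pow]
  · unfold gG
    refine Polynomial.natDegree_sum_le_of_forall_le _ _ fun e _ => ?_
    exact (Polynomial.natDegree_C_mul_X_pow_le _ _).trans (by omega)
  · intro hH0
    have h5 := congrArg (fun p => Polynomial.coeff p n) hH0
    simp only [hH, Polynomial.coeff_add, Polynomial.coeff_X_pow_self, Polynomial.coeff_zero,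
      Polynomial.finsetSum_coeff, Polynomial.coeff_C_mul_X_pow] at h5
    rw [Finset.sum_eq_zero, add_zero] at h5
    · exact one_ne_zero h5
    · intro j _
      rw [if_neg]
      have := j.2
      omega
  · exact (Finset.prod_ne_zero_iff.1 (right_ne_zero_of_mul h4)) i (Finset.mem_univ i)
  · exact form_ne h0 _ (right_ne_zero_of_mul h3)

end Pool.Agent.Helper60.RK
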